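import Pool.Agent.V11219.LocStd
import Pool.Agent.V11219.BstMain

/-!
# Homological and numerical equivalence for varieties dominated by products of varieties with finite
# inertia

Let `W` be a Weil cohomology theory with algebraically closed coefficients on a class of smooth
proper varieties over a field `k` of any characteristic, and `G` a class of varieties, closed under
products, with an action of a group `Γ` with the formal properties of a Galois action (the example:
varieties over a subfield `F` of the algebraically closed field `k`, and the Galois group of `F`;
`χ` is the action on the Tate twists).

Let `X_i` be varieties of odd dimension in `G`, with divisors `D_i` which satisfy the hard Lefschetz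
theorem and the standard conjectures of Lefschetz and of Hodge type (for example curves), and
whose transcendental cohomology `T_i` (the orthogonal complement of all algebraic classes; for curves
`T_i = H^1(X_i)`) is concentrated in the middle degree and irreducible under all subgroups of finite
index of `Γ`. For every `i` let there be one element `g_i` of `Γ` with `χ(g_i) = 1` of one of the
following kinds.

* **(finite order)** `g_i` acts on `T_i` with finite order, and its eigenvalues are *isolated* with
  respect to a group `Λ` of numbers which contains all eigenvalues of `g_i` on the cohomology of `Z` and
  of the `X_j` with `j ≠ i`: the eigenvalues on `T_i` are divided into two nonempty sets `S` and `S'`, both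
  stable under `α ↦ α⁻¹`, such that for `α` in `S` and `β` in `S'` the number `β / α` is not in `Λ`, at
  least one of `α`, `β` has multiplicity one, `β / α` is the quotient of no other pair of eigenvalues
  except the dual pair, and geometric progressions of length three with the quotient `β / α` are
  self-dual, with outer terms of multiplicity one. In this case let some element of `Γ` (a
  Frobenius element) have two eigenvalues on `T_i` whose quotient is not a root of unity. Example:
  the eigenvalues are `1` with multiplicity `2 g - 2` and `ζ`, `ζ⁻¹`, where `ζ` is a root of unity of
  order at least four which is not in `Λ`; for instance an element of the inertia group at a
  place at which the curve `X_i` acquires a cusp `y ^ 2 = x ^ 3 + t` (and has potentially good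
  reduction; `ζ` has order six). **The other factors may have bad reduction at the same place**,
  if only `ζ` does not belong to the group generated by the eigenvalues of the inertia on them.
* **(unipotent)** `g_i` acts trivially on the cohomology of `Z` and of the `X_j` with `j ≠ i`, and on `T_i`
  it satisfies `(g_i - 1) ^ 2 = 0`, and the defects of `g_i` have no common prime factor or contain
  the number two; here the defects are the rank of `g_i - 1` on `T_i` and the multiplicities of the
  nonzero eigenvalues of `(g_i - 1) (g' - 1)` on `T_i`, for the elements `g'` with the same properties
  (for example for conjugates of `g_i`).

Let `T` be the product of `Z` with arbitrary powers of the `X_i`.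

1. Homological and numerical equivalence coincide for `T` **if and only if** they coincide for `Z`; no
   standard conjecture is assumed for `Z`.
2. If they coincide for `Z` (for instance if `Z` is a point, a curve or a surface), then they coincide
   for every variety `V` which is dominated by `T`, more precisely for which there is a morphism
   `g : T → V` such that `1` is the direct image under `g` of the class of a cycle.

The starting result `MP_0c8446_ag.SimultaneousDegenerations` uses unipotent elements (semistable
degenerations) only; here the inertia may be finite (potentially good reduction). The starting result
`MP_96693b_ag.FiniteInertiaProducts` has the conjectures B (for varieties `V` with `V × V` dominated by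
`T`, if D holds for `Z`) and A (for `T`) under these hypotheses.

Proof. Let `L` be the Lie algebra of the operators on `T = T_i` which kill all the multilinear maps
from `T` to the cohomology of the other factors which are equivariant under some subgroup of finite
index. In the first case the Jordan decomposition of the Frobenius element and an additive function
on the group generated by its eigenvalues give an operator `Y` on `T`, not a scalar, with an
operator `Y'` on the cohomology of the other factors, such that the pair is compatible with all these
multilinear maps; the component of `Y` for the eigenvalue `β / α` of the conjugation by `g_i` is in
`L`, as `β / α` is no quotient of eigenvalues on the other factors; since the quotient is isolated it is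
an element of rank at most two of a simple form, and with the irreducibility one obtains an element of
rank one. In the second case `L` contains the logarithms of the conjugates of `g_i`, and the theory of
extremal elements is used. In both cases `L` is the whole symplectic Lie algebra. By the first
fundamental theorem the algebraic classes on the product are combinations of products of algebraic
classes of the power of `X_i` and classes of the other factor. Since D holds for the powers of the
`X_i`, the cycles on the product split into products of cycles. For the second statement: if a
combination `c` of algebraic classes on `V` is orthogonal to all algebraic classes, then so is `g^* c`,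
so `g^* c = 0`, and `c = g_*(w g^* c) = 0`, if `g_* w = 1`.
-/

universe u

namespace Pool.Agent.Results.MP_0c8446_ag.FiniteInertiaProducts

open Pool.Agent.H914 Pool.Agent.H914.VarClass.Obj Pool.Agent.H281R3.HT Pool.Agent.TH125.Gal
  Pool.Agent.V11219.Loc Pool.Agent.V11219.Bst

/-- **Homological and numerical equivalence for varieties dominated by products of powers of varieties
with finite or unipotent inertia of the given types.** -/
theorem result {k : Type u} [Field k] {𝒱 : VarClass k} {ops : CycleOps 𝒱}
    (W : WeilCohomology.{u, 0} ops) [IsAlgClosed W.K] {Γ : Type} [Group Γ] (χ : Γ →* W.Kˣ)
    (G : Set (GVar W Γ)) {ι : Type} (X : ι → GVar W Γ) (D : ∀ i, (X i).X.Cycles)
    (Z : GVar W Γ) (h : LocalSystem χ G X D Z) (E : Z.X.Cycles)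
    (L : List (ι × ℕ)) (hL : (L.map Prod.fst).Nodup) :
    (HomEqNum W (nodalTower X D Z E L).X ↔ HomEqNum W Z.X) ∧
      (HomEqNum W Z.X → ∀ (V : 𝒱.Obj) (g : (nodalTower X D Z E L).X ⟶ V), Dominant W g →
        HomEqNum W V) := by
  have h1 := homEqNum_local h E L hL
  exact ⟨h1, fun hZ V g hg => homEqNum_of_dominant hg (h1.2 hZ)⟩

end Pool.Agent.Results.MP_0c8446_ag.FiniteInertiaProducts
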