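import Mathlib
import Pool.Agent.V11219.BstMain
import Pool.Agent.N171.TG.Kl3

/-!
# Homological and numerical equivalence for varieties dominated by products with powers of varieties
# with a large image modulo two

Let `W` be a Weil cohomology theory on a class of smooth proper varieties over a field `k` of any
characteristic, with coefficients in a field which contains the 2-adic numbers; the example is the
2-adic cohomology of varieties over an algebraically closed field of characteristic different from two.
Let `Γ` be a group (for example the Galois group of a field of definition, or the fundamental group of
the base of a family) and `G` a class of varieties, closed under products, with an action of `Γ` on the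
cohomology which has the formal properties of a Galois action.

The varieties `X i` are finitely many varieties of odd dimension, with divisors which satisfy hard
Lefschetz and the standard conjectures of Lefschetz and of Hodge type (for instance hypersurfaces and
complete intersections of odd dimension, or curves), whose transcendental cohomology is in the middle
degree; it is spanned by a lattice over the 2-adic integers of rank `N i` which is stable under `Γ`.
The other hypothesis on the `X i` is on the finite group of the action on the lattices MODULO TWO
(`LargeModTwo`): `N i ≥ 6`, and modulo two there are `N i + 1` vectors with mutual products one (in
the space of the even subsets of a set with `N i + 2` elements modulo the whole set they are the pairs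
`{0, j}`), such that each even permutation of these vectors is the action of an element of `Γ` which
acts trivially on the other lattices modulo two. It holds if the image modulo two contains the product
of the symplectic groups over the field with two elements. The variety `Z` is arbitrary; for a stable
lattice in its cohomology, of rank `d`, the group `Γ` does not act by permutations of the vectors
through its action on this lattice modulo two, or `(N i + 1)! > 2 ^ (d ^ 2 + 1)` (`FreeBase`).

Let `T` be the product of `Z` with arbitrary powers of the `X i`. Then

1. homological and numerical equivalence coincide for `T` **if and only if** they coincide for `Z`; no
   standard conjecture is assumed for `Z`;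
2. if they coincide for `Z` (for instance if `Z` is a point, a curve or a surface), then they coincide
   for every variety `V` which is dominated by `T`, more precisely for which there is a morphism
   `g : T → V` such that `1` is the direct image under `g` of the class of a cycle.

The starting result `MP_f569db_ag.LargeGaloisGroups` is the case of hyperelliptic curves with large
Galois groups of the branch points (and of varieties with the Tate modules of such curves); here the
varieties are not related to curves, and only the image of `Γ` modulo two is used. The starting results
`MP_0273e8_ag.ImageModTwo` and `MP_c16065_ag.ImageModTwo` have the conjectures A and B.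

Proof. Some element of `Γ` acts by a product of two transpositions on the vectors, its square is
trivial modulo two on the lattice of `X i`, is not a scalar modulo four, and is trivial modulo four on
the other lattices. The logarithms of the conjugates of its powers generate a Lie algebra whose
saturation is the symplectic Lie algebra over the 2-adic integers. These Lie algebras kill all forms on
the lattices with values in the cohomology of `Z` which are equivariant under a subgroup of finite
index. By the first fundamental theorem the algebraic classes on the tower are combinations of
products of algebraic classes on the powers of the `X i` and of classes on `Z`. By a theorem on the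
positivity of the form on classes generated by pairs of factors the algebraic classes of the powers have
an orthogonal rational basis; the components of an algebraic class in this basis are algebraic classes
on the other factor. For the second statement: if a combination `c` of algebraic classes on `V` is
orthogonal to all algebraic classes, then so is `g^* c`, so `g^* c = 0`, and `c = g_*(w g^* c) = 0`, if
`g_* w = 1`.
-/

universe u

namespace Pool.Agent.Results.MP_0c8446_ag.ImageModTwo

open Pool.Agent.H914 Pool.Agent.H281R3.HT Pool.Agent.TH125.Gal Pool.Agent.N171.TG.Kp
  Pool.Agent.V11219.Bst

/-- **Homological and numerical equivalence for varieties dominated by products with powers of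
varieties with a large image modulo two.** -/
theorem result {k : Type u} [Field k] {𝒱 : VarClass k} {ops : CycleOps 𝒱}
    (W : WeilCohomology.{u, 0} ops) [Algebra ℚ_[2] W.K] {Γ : Type} [Group Γ] (κ : Γ →* ℤ_[2]ˣ)
    {ι : Type} [Finite ι] (G : Set (GVar W Γ)) (X : ι → GVar W Γ) (D : ∀ i, (X i).X.Cycles)
    (Z : GVar W Γ) {N : ι → ℕ} (b : ∀ i, Fin (N i) → W.H (X i).X)
    (J : ∀ i, Matrix (Fin (N i)) (Fin (N i)) ℤ_[2])
    (ρ : ∀ i, Γ →* Matrix (Fin (N i)) (Fin (N i)) ℤ_[2])
    (h : LatticeSystem κ G X D Z b J ρ)
    (e : ∀ i, Matrix (Fin (N i)) (Fin (N i + 1)) (ZMod 2)) (h2 : LargeModTwo J ρ e)
    (hZ : FreeBase Z.act ρ e) (E : Z.X.Cycles) (L : List (ι × ℕ)) (hL : (L.map Prod.fst).Nodup) :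
    (HomEqNum W (nodalTower X D Z E L).X ↔ HomEqNum W Z.X) ∧
      (HomEqNum W Z.X → ∀ (V : 𝒱.Obj) (g : (nodalTower X D Z E L).X ⟶ V), Dominant W g →
        HomEqNum W V) := by
  classical
  have := Fintype.ofFinite ι
  have h1 := (Pool.Agent.N171.TG.Kl.kSys_of_large h h2 hZ).homEqNum E L hL
  exact ⟨h1, fun hY V g hg => homEqNum_of_dominant hg (h1.2 hY)⟩

end Pool.Agent.Results.MP_0c8446_ag.ImageModTwo
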