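import Pool.Agent.Q71.TS.Main
import Pool.Agent.V11219.BstMain

/-!
# Homological and numerical equivalence for varieties dominated by products with powers of varieties
# with a maximal degeneration, or with ordinary K3 slopes

Let `W` be a Weil cohomology theory with an algebraically closed coefficient field on a class of
smooth proper varieties over a field `k` of any characteristic, and `G` a class of varieties, closed
under products, with an action of a group `Γ` with the formal properties of a Galois action (the
example: varieties over a subfield `F` of the algebraically closed field `k`, for instance a field of
functions in positive characteristic, and the Galois group of `F`; `χ` is the inverse of the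
cyclotomic character).

Let `X_i` be varieties in `G` of even dimension, with divisors which satisfy the hard Lefschetz
theorem and the standard conjectures of Lefschetz and of Hodge type (for example surfaces), whose
transcendental cohomology `T_i` (the orthogonal complement of all algebraic classes) is in the middle
degree, irreducible under all subgroups of finite index, and of rank `3` or at least `5`. For every
`i` one of the following holds.

* An element `g_i` of `Γ` acts on `T_i` with `(g_i - 1)^3 = 0`, `(g_i - 1)^2 ≠ 0` and `g_i - 1` of
  rank `2`. Example: an element of the inertia group at a place of maximal degeneration (type III
  reduction) of a K3 surface, or of a surface of any geometric genus whose local monodromy has the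
  Jordan blocks `3, 1, ..., 1` on `T_i`.
* An element `F_i` of `Γ` (a Frobenius element) acts on `T_i` with the slopes `h + c`, `h - c`, once
  each, and `h` (ordinary K3 type), for a valuation of the coefficient field.

Suppose that the `T_i` are not isomorphic to each other up to a twist, that for two indices with
rank `8` the element (and the valuation) is the same, and that the cohomology of the variety `Z`, in
`G`, is generated by representations which are small with respect to the `X_i` (see `LocSmallOn`,
`SmallFor`; for instance `Z` has good reduction at the place of `g_i`). Nothing else is assumed on `Z`.

Let `Y` be the product of `Z` with powers of different `X_i`, with less than `rank T_i` factors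
`X_i`.

1. Homological and numerical equivalence coincide for `Y` **if and only if** they coincide for `Z`; no
   standard conjecture is assumed for `Z`.
2. If they coincide for `Z` (for instance if `Z` is a point, a curve or a surface), then they coincide
   for every variety `V` which is dominated by `Y`, more precisely for which there is a morphism
   `g : Y → V` such that `1` is the direct image under `g` of the class of a cycle.

The starting result `MP_ffcd14_ag.MaximalDegenerations` proves the standard conjecture of Hodge type
and the conjecture D for `Y` if `Z` satisfies the hard Lefschetz theorem and the standard conjectures
of Lefschetz and of Hodge type. Here the base is arbitrary: D for `Z` is enough (and necessary), and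
the varieties dominated by `Y` are treated.

The proof: every algebraic class on the product is semi-invariant under a subgroup of finite index.
The Lie algebra of the operators which kill all the equivariant multilinear maps contains the
logarithm of `g_i`, an Eichler operator, hence all of `so(T_i)`, and the parts for different `i` are
independent. So the algebraic classes are combinations of products of algebraic classes on the
powers of `X_i`, generated by algebraic classes on the factors and the transcendental parts of the
diagonals, and of classes on the other factor. By a theorem on positivity the algebraic classes of the
powers have an orthogonal rational basis; the components of an algebraic class in this basis are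
algebraic classes on the other factor. For the second statement: if a combination `c` of algebraic
classes on `V` is orthogonal to all algebraic classes, then so is `g^* c`, so `g^* c = 0`, and
`c = g_*(w g^* c) = 0`, if `g_* w = 1`.
-/

universe u

namespace Pool.Agent.Results.MP_0c8446_ag.MaximalDegenerations

open Pool.Agent.H914 Pool.Agent.H281R3.HT Pool.Agent.TH125.Gal Pool.Agent.Q71.TM.P
  Pool.Agent.Q71.TS Pool.Agent.V11219.Bst

/-- **Homological and numerical equivalence for varieties dominated by products with powers of
varieties with a maximal degeneration or with ordinary K3 slopes.** -/
theorem result {k : Type u} [Field k] {𝒱 : VarClass k} {ops : CycleOps 𝒱}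
    {W : WeilCohomology.{u, 0} ops} (hK : IsAlgClosed W.K) {Γ : Type} [Group Γ] {T : Tw W.K Γ}
    {G : Set (GVar W Γ)} {ι : Type} {l : ι → Loc W.K Γ} {r : ι → ℕ} {X : ι → GVar W Γ}
    {D : ∀ i, (X i).X.Cycles} {Z : GVar W Γ} (h : PolFamily T G l r X D Z) (E : Z.X.Cycles)
    {L : List (ι × ℕ)} (hL : SmallExps r L) {Y : Polarized 𝒱}
    (hY : Y = polTower ops (fun i => ⟨(X i).X, D i⟩) ⟨Z.X, E⟩ L) :
    (HomEqNum W Y.X ↔ HomEqNum W Z.X) ∧
      (HomEqNum W Z.X → ∀ (V : 𝒱.Obj) (g : Y.X ⟶ V), Dominant W g → HomEqNum W V) := by
  subst hY
  have h1 := h.homEqNum E hL
  exact ⟨h1, fun hZ V g hg => homEqNum_of_dominant hg (h1.2 hZ)⟩

end Pool.Agent.Results.MP_0c8446_ag.MaximalDegenerations
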